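import Pool.Agent.H.MP_e4803a_nt.E

open MeasureTheory Filter Topology

namespace Pool.Agent.Results.MP_e4803a_nt.Counter

noncomputable def kappa (m : ℕ) (X : ℝ → ℝ) : ℝ :=
  iteratedDeriv m (fun t : ℝ => Real.log (∫ w in Set.Icc (0:ℝ) 1, Real.exp (t * X w))) 0

noncomputable def S (η : ℝ) (n : ℕ) (w : ℝ) : ℝ :=
  ∑ k ∈ Finset.Icc 1 n, Real.cos (2 * Real.pi * (⌊η ^ k⌋₊ : ℝ) * w)

def IsPerron (η : ℝ) : Prop :=
  IsIntegral ℤ η ∧ 1 < η ∧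
    ∀ β : ℂ, Polynomial.aeval β (minpoly ℚ η) = 0 → β ≠ (η : ℂ) → ‖β‖ < η

theorem result : ∃ η : ℝ, IsAlgebraic ℚ η ∧ 1 < η ∧ ¬ IsPerron η ∧
    Tendsto (fun n : ℕ => kappa 6 (S η n) / n) atTop atTop ∧
    ¬ ∃ c : ℝ, Tendsto (fun n : ℕ => kappa 6 (S η n) / n) atTop (𝓝 c) := by
  have h1 : (1 : ℝ) < Pool.Agent.H.MP_e4803a_nt.et := by
    have := Pool.Agent.H.MP_e4803a_nt.et_gt; linarith
  refine ⟨_, Pool.Agent.H.MP_e4803a_nt.et_alg, h1, fun h => ?_,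
    Pool.Agent.H.MP_e4803a_nt.kap_tend, fun ⟨c, h⟩ =>
      not_tendsto_nhds_of_tendsto_atTop Pool.Agent.H.MP_e4803a_nt.kap_tend c h⟩
  have := h.2.2 _ Pool.Agent.H.MP_e4803a_nt.conj_C (by
    rw [Ne, Complex.ofReal_inj]; linarith)
  rw [Complex.norm_real, norm_neg, Real.norm_eq_abs, abs_of_pos (by linarith)] at this
  exact lt_irrefl _ this

end Pool.Agent.Results.MP_e4803a_nt.Counter
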